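import Pool.Graph.R_pool_sql_team_seeded_1acbe0a2.Y507.GM.G6

/-!
# The greatest value of Gromov's mass of a unit ball
-/

set_option autoImplicit false
open MeasureTheory Set Module
open scoped ENNReal

namespace Pool.Agent.KS6_79.GV

variable {d : ℕ}

/-- `o`-symmetric convex bodies: compact, convex, with non-empty interior, `M = -M` -/
structure IsSymConvexBody (M : Set (Fin d → ℝ)) : Prop where
  isCompact : IsCompact M
  convex : Convex ℝ M
  interior_nonempty : (interior M).Nonempty
  neg_mem : ∀ x ∈ M, -x ∈ M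

/-- the cross-polytope `conv {± v_1, …, ± v_d}` -/
def crossPolytope (v : Fin d → (Fin d → ℝ)) : Set (Fin d → ℝ) :=
  convexHull ℝ (range v ∪ range (fun i => -v i))

/-- the volumes of the cross-polytopes inscribed in `M` -/
def crossVolumes (M : Set (Fin d → ℝ)) : Set ℝ :=
  {t | ∃ v : Fin d → (Fin d → ℝ), (∀ i, v i ∈ M) ∧ LinearIndependent ℝ v ∧
    t = (volume (crossPolytope v)).toReal}

/-- the greatest volume of a cross-polytope inscribed in `M` -/
noncomputable def maxCross (M : Set (Fin d → ℝ)) : ℝ := sSup (crossVolumes M)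

/-- Gromov's mass of the unit ball `M` -/
noncomputable def gromovMass (M : Set (Fin d → ℝ)) : ℝ :=
  (2 : ℝ) ^ d / (d.factorial : ℝ) * ((volume M).toReal / maxCross M)

/-- the Euclidean unit ball of `ℝᵈ` -/
def euclideanBall (d : ℕ) : Set (Fin d → ℝ) := {x | ∑ i, x i ^ 2 ≤ 1}

/-- ellipsoids with centre `0` -/
def IsEllipsoid (M : Set (Fin d → ℝ)) : Prop :=
  ∃ B : Matrix (Fin d) (Fin d) ℝ, B.det ≠ 0 ∧ M = (fun x => B.mulVec x) '' euclideanBall d

open Pool.Agent.Helper481

lemma cross_eq (v : Fin d → (Fin d → ℝ)) : crossPolytope v = MS.crossPolytope 0 v := by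
  unfold crossPolytope MS.crossPolytope
  simp

lemma vol_cross (hd : 0 < d) (v : Fin d → (Fin d → ℝ)) :
    (volume (crossPolytope v)).toReal = |(Matrix.of v).det| * (2 ^ d / d.factorial) := by
  rw [cross_eq, MS.vol_cross, MB.vol_std hd, ← ENNReal.ofReal_mul (abs_nonneg _),
    ENNReal.toReal_ofReal (by positivity)]

lemma det_iff (v : Fin d → (Fin d → ℝ)) : LinearIndependent ℝ v ↔ (Matrix.of v).det ≠ 0 := by
  have h := Matrix.linearIndependent_rows_iff_isUnit (A := Matrix.of v)
  rw [Matrix.isUnit_iff_isUnit_det, isUnit_iff_ne_zero] at h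
  exact h

lemma det_cont : Continuous fun v : Fin d → (Fin d → ℝ) => |(Matrix.of v).det| :=
  (Continuous.matrix_det (continuous_id)).abs

/-- the greatest determinant -/
lemma exists_max {M : Set (Fin d → ℝ)} (hM : IsSymConvexBody M) :
    ∃ v : Fin d → (Fin d → ℝ), (∀ i, v i ∈ M) ∧ 0 < |(Matrix.of v).det| ∧
      ∀ w : Fin d → (Fin d → ℝ), (∀ i, w i ∈ M) → |(Matrix.of w).det| ≤ |(Matrix.of v).det| := by
  have hne : M.Nonempty := hM.interior_nonempty.mono interior_subset
  obtain ⟨x, hx⟩ := hne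
  have hc : IsCompact (Set.pi univ fun _ : Fin d => M) := isCompact_univ_pi fun _ => hM.isCompact
  obtain ⟨v, hv, hmax⟩ := hc.exists_isMaxOn ⟨fun _ => x, fun _ _ => hx⟩
    (det_cont (d := d)).continuousOn
  have hmax' : ∀ w : Fin d → (Fin d → ℝ), (∀ i, w i ∈ M) →
      |(Matrix.of w).det| ≤ |(Matrix.of v).det| := fun w hw => hmax fun i _ => hw i
  refine ⟨v, fun i => hv i (mem_univ i), ?_, hmax'⟩
  -- a small frame
  have h0 : (0 : Fin d → ℝ) ∈ interior M := by
    obtain ⟨x, hx⟩ := hM.interior_nonempty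
    have h1 : -x ∈ interior M := by
      rw [mem_interior] at hx ⊢
      obtain ⟨U, hU, hUo, hxU⟩ := hx
      refine ⟨-U, fun y hy => ?_, hUo.neg, by simpa using hxU⟩
      have := hM.neg_mem _ (hU hy)
      simpa using this
    have h2 := hM.convex.interior.midpoint_mem hx h1
    rwa [midpoint_self_neg] at h2
  obtain ⟨ε, hε, hb⟩ := Metric.mem_nhds_iff.1 (mem_interior_iff_mem_nhds.1 h0)
  have h2 := hmax' (fun i => (ε / 2) • Pi.single i (1 : ℝ)) (fun i => by
    apply hb
    rw [mem_ball_zero_iff, norm_smul, Real.norm_eq_abs, abs_of_pos (by positivity),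
      Pi.norm_single, norm_one, mul_one]
    linarith)
  refine lt_of_lt_of_le ?_ h2
  have h3 : (Matrix.of fun i : Fin d => (ε / 2) • (Pi.single i (1 : ℝ) : Fin d → ℝ)) =
      (ε / 2) • (1 : Matrix (Fin d) (Fin d) ℝ) := by
    ext i j
    simp [Matrix.one_apply, Pi.single_apply, eq_comm]
  rw [h3, Matrix.det_smul, Matrix.det_one, mul_one]
  positivity

lemma maxCross_spec (hd : 0 < d) {M : Set (Fin d → ℝ)} (hM : IsSymConvexBody M)
    {v : Fin d → (Fin d → ℝ)} (hv : ∀ i, v i ∈ M) (hpos : 0 < |(Matrix.of v).det|)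
    (hmax : ∀ w : Fin d → (Fin d → ℝ), (∀ i, w i ∈ M) →
      |(Matrix.of w).det| ≤ |(Matrix.of v).det|) :
    IsGreatest (crossVolumes M) (|(Matrix.of v).det| * (2 ^ d / d.factorial)) := by
  constructor
  · exact ⟨v, hv, (det_iff v).2 (abs_pos.1 hpos), (vol_cross hd v).symm⟩
  · rintro t ⟨w, hw, -, rfl⟩
    rw [vol_cross hd]
    exact mul_le_mul_of_nonneg_right (hmax w hw) (by positivity)

lemma mass_eq (hd : 0 < d) {M : Set (Fin d → ℝ)} (hM : IsSymConvexBody M)
    {v : Fin d → (Fin d → ℝ)} (hv : ∀ i, v i ∈ M) (hpos : 0 < |(Matrix.of v).det|)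
    (hmax : ∀ w : Fin d → (Fin d → ℝ), (∀ i, w i ∈ M) →
      |(Matrix.of w).det| ≤ |(Matrix.of v).det|) :
    gromovMass M = (volume M).toReal / |(Matrix.of v).det| := by
  unfold gromovMass maxCross
  rw [(maxCross_spec hd hM hv hpos hmax).csSup_eq]
  have hf : (0 : ℝ) < d.factorial := by positivity
  field_simp

lemma kappa_pos (d : ℕ) : 0 < (volume (euclideanBall d)).toReal := by
  have h : (interior (euclideanBall d)).Nonempty := by
    refine ⟨0, ?_⟩
    rw [mem_interior]
    refine ⟨{x | ∑ i, x i ^ 2 < 1}, fun x (hx : ∑ i, x i ^ 2 < 1) => (le_of_lt hx : _ ≤ _),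
      isOpen_lt (by fun_prop) continuous_const, by simp⟩
  exact ENNReal.toReal_pos (Measure.measure_pos_of_nonempty_interior volume h).ne'
    (MB.eball_compact d).measure_lt_top.ne

lemma ball_body (d : ℕ) : IsSymConvexBody (euclideanBall d) := by
  refine ⟨MB.eball_compact d, MB.eball_convex d, ?_, ?_⟩
  · refine ⟨0, ?_⟩
    rw [mem_interior]
    refine ⟨{x | ∑ i, x i ^ 2 < 1}, fun x (hx : ∑ i, x i ^ 2 < 1) => (le_of_lt hx : _ ≤ _),
      isOpen_lt (by fun_prop) continuous_const, by simp⟩
  · intro x hx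
    have h1 : ∑ i, x i ^ 2 ≤ 1 := hx
    change ∑ i, (-x) i ^ 2 ≤ 1
    simpa using h1

/-- the mass of an ellipsoid -/
lemma mass_ellipsoid (hd : 0 < d) {M : Set (Fin d → ℝ)} (hM : IsSymConvexBody M)
    (hE : IsEllipsoid M) : gromovMass M = (volume (euclideanBall d)).toReal := by
  obtain ⟨B, hB, hMB⟩ := hE
  obtain ⟨v, hv, hpos, hmax⟩ := exists_max hM
  rw [mass_eq hd hM hv hpos hmax]
  have hvol : volume M = ENNReal.ofReal |B.det| * volume (euclideanBall d) := by
    rw [hMB]
    have : (fun x => B.mulVec x) = (Matrix.toLin' B : (Fin d → ℝ) → Fin d → ℝ) := by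
      funext x; rw [Matrix.toLin'_apply]
    rw [this, Measure.addHaar_image_linearMap, LinearMap.det_toLin']
  have hdetmul : ∀ w : Fin d → (Fin d → ℝ),
      (Matrix.of fun i => B.mulVec (w i)).det = (Matrix.of w).det * B.det := by
    intro w
    have : (Matrix.of fun i => B.mulVec (w i)) = Matrix.of w * B.transpose := by
      ext i j
      rw [Matrix.of_apply, Matrix.mul_apply, Matrix.mulVec, dotProduct]
      refine Finset.sum_congr rfl fun k _ => ?_
      rw [Matrix.transpose_apply, Matrix.of_apply, mul_comm]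
    rw [this, Matrix.det_mul, Matrix.det_transpose]
  have hdet : |(Matrix.of v).det| = |B.det| := by
    apply le_antisymm
    · have hv' : ∀ i, ∃ w ∈ euclideanBall d, B.mulVec w = v i := by
        intro i
        have := hv i
        rw [hMB] at this
        exact this
      choose w hw hwv using hv'
      have h1 : v = fun i => B.mulVec (w i) := funext fun i => (hwv i).symm
      rw [h1, hdetmul, abs_mul]
      calc |(Matrix.of w).det| * |B.det| ≤ 1 * |B.det| := by
            gcongr
            exact MB.det_eball w hw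
        _ = |B.det| := one_mul _
    · have h1 := hmax (fun i => B.mulVec (Pi.single i 1)) (fun i => by
        rw [hMB]
        refine ⟨Pi.single i 1, ?_, rfl⟩
        change ∑ j, (Pi.single i (1 : ℝ) : Fin d → ℝ) j ^ 2 ≤ 1
        rw [Finset.sum_eq_single i]
        · simp
        · intro j _ hj
          rw [Pi.single_eq_of_ne hj]; norm_num
        · simp)
      rw [hdetmul] at h1
      have h2 : (Matrix.of fun i : Fin d => (Pi.single i (1 : ℝ) : Fin d → ℝ)) = 1 := by
        ext i j
        simp [Matrix.one_apply, Pi.single_apply, eq_comm]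
      rw [h2, Matrix.det_one, one_mul] at h1
      exact h1
  rw [hvol, hdet, ENNReal.toReal_mul, ENNReal.toReal_ofReal (abs_nonneg _)]
  have hB' : |B.det| ≠ 0 := abs_ne_zero.2 hB
  field_simp

end Pool.Agent.KS6_79.GV
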