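import Pool.Agent.KS6_79.GV.A

set_option autoImplicit false
open MeasureTheory Set Module
open scoped ENNReal

namespace Pool.Agent.KS6_79.GV

variable {d : ℕ}

open Pool.Agent.Helper481

/-- determinants of rows in the symmetric convex hull -/
theorem det_hull {A : Set (Fin d → ℝ)} {D : ℝ}
    (h : ∀ v : Fin d → Fin d → ℝ, (∀ i, v i ∈ A) → |(Matrix.of v).det| ≤ D)
    (v : Fin d → Fin d → ℝ) (hv : ∀ i, v i ∈ convexHull ℝ (A ∪ -A)) :
    |(Matrix.of v).det| ≤ D := by
  have key : ∀ S : Finset (Fin d), ∀ v : Fin d → Fin d → ℝ,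
      (∀ i ∈ S, v i ∈ convexHull ℝ (A ∪ -A)) → (∀ i, i ∉ S → v i ∈ A) →
      |(Matrix.of v).det| ≤ D := by
    intro S
    induction S using Finset.induction_on with
    | empty => exact fun v _ h2 => h v fun i => h2 i (Finset.notMem_empty i)
    | insert i S hi ih =>
      intro v h1 h2
      let L : (Fin d → ℝ) →ₗ[ℝ] ℝ :=
        (Matrix.detRowAlternating (n := Fin d) (R := ℝ)).toMultilinearMap.toLinearMap v i
      have hL : ∀ x, L x = (Matrix.of (Function.update v i x)).det := fun x => rfl
      have hT : Convex ℝ (L ⁻¹' Icc (-D) D) := (convex_Icc (-D) D).linear_preimage L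
      have hA1 : ∀ x ∈ A, |L x| ≤ D := by
        intro x hx
        rw [hL]
        apply ih
        · intro j hj
          have hji : j ≠ i := fun e => hi (e ▸ hj)
          rw [Function.update_of_ne hji]
          exact h1 j (Finset.mem_insert_of_mem hj)
        · intro j hj
          by_cases hji : j = i
          · subst hji; rw [Function.update_self]; exact hx
          · rw [Function.update_of_ne hji]
            exact h2 j (fun hm => (Finset.mem_insert.1 hm).elim hji hj)
      have hAT : A ∪ -A ⊆ L ⁻¹' Icc (-D) D := by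
        rintro x (hx | hx)
        · exact abs_le.1 (hA1 x hx)
        · have h3 := hA1 (-x) hx
          rw [map_neg, abs_neg] at h3
          exact abs_le.1 h3
      have h3 := convexHull_min hAT hT (h1 i (Finset.mem_insert_self i S))
      have h4 : L (v i) = (Matrix.of v).det := by
        rw [hL, Function.update_eq_self]
      rw [mem_preimage, h4] at h3
      exact abs_le.2 h3
  exact key Finset.univ v (fun i _ => hv i) (fun i hi => absurd (Finset.mem_univ i) hi)

/-- closed symmetric convex hull -/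
def SH (A : Set (Fin d → ℝ)) : Set (Fin d → ℝ) := closure (convexHull ℝ (A ∪ -A))

theorem symHull_compact {A : Set (Fin d → ℝ)} (hA : IsCompact A) : IsCompact (SH A) :=
  Metric.isCompact_of_isClosed_isBounded isClosed_closure
    (isBounded_convexHull.2 (hA.union hA.neg).isBounded).closure

theorem sub_SH (A : Set (Fin d → ℝ)) : A ⊆ SH A :=
  subset_union_left.trans ((subset_convexHull ℝ _).trans subset_closure)

theorem conv_SH (A : Set (Fin d → ℝ)) : Convex ℝ (SH A) := (convex_convexHull ℝ _).closure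

theorem symHull_neg {A : Set (Fin d → ℝ)} : ∀ x ∈ SH A, -x ∈ SH A := by
  intro x hx
  refine map_mem_closure continuous_neg hx ?_
  intro y hy
  have h1 : -(convexHull ℝ (A ∪ -A)) = convexHull ℝ (-(A ∪ -A)) := (convexHull_neg _).symm
  have h2 : -(A ∪ -A) = A ∪ -A := by
    rw [union_neg, neg_neg, union_comm]
  rw [h2] at h1
  rw [← h1]
  simpa using hy

theorem det_closure {A : Set (Fin d → ℝ)} {D : ℝ}
    (h : ∀ v : Fin d → Fin d → ℝ, (∀ i, v i ∈ A) → |(Matrix.of v).det| ≤ D)
    (v : Fin d → Fin d → ℝ) (hv : ∀ i, v i ∈ closure A) : |(Matrix.of v).det| ≤ D := by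
  have h1 : v ∈ closure (Set.pi univ fun _ : Fin d => A) := by
    rw [closure_pi_set]
    exact fun i _ => hv i
  have h2 : IsClosed {v : Fin d → Fin d → ℝ | |(Matrix.of v).det| ≤ D} :=
    isClosed_le det_cont continuous_const
  have h3 : (Set.pi univ fun _ : Fin d => A) ⊆ {v : Fin d → Fin d → ℝ | |(Matrix.of v).det| ≤ D} :=
    fun w hw => h w fun i => hw i (mem_univ i)
  exact closure_minimal h3 h2 h1

theorem det_SH {A : Set (Fin d → ℝ)} {D : ℝ}
    (h : ∀ v : Fin d → Fin d → ℝ, (∀ i, v i ∈ A) → |(Matrix.of v).det| ≤ D)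
    (v : Fin d → Fin d → ℝ) (hv : ∀ i, v i ∈ SH A) : |(Matrix.of v).det| ≤ D :=
  det_closure (det_hull h) v hv

/-- the determinant inequality for compact sets -/
theorem vol_le_compact {A : Set (Fin d → ℝ)} (hA : IsCompact A) {D : ℝ}
    (h : ∀ v : Fin d → Fin d → ℝ, (∀ i, v i ∈ A) → |(Matrix.of v).det| ≤ D) :
    volume A ≤ MB.kappa d * ENNReal.ofReal D :=
  (measure_mono (sub_SH A)).trans
    (MB.macbeath_pi d (symHull_compact hA) (conv_SH A) (det_SH h))

/-- the determinant inequality for all sets -/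
theorem vol_le {A : Set (Fin d → ℝ)} {D : ℝ}
    (h : ∀ v : Fin d → Fin d → ℝ, (∀ i, v i ∈ A) → |(Matrix.of v).det| ≤ D) :
    volume A ≤ MB.kappa d * ENNReal.ofReal D := by
  have hb : ∀ n : ℕ, volume (A ∩ Metric.closedBall 0 n) ≤ MB.kappa d * ENNReal.ofReal D := by
    intro n
    have hc : IsCompact (closure (A ∩ Metric.closedBall (0 : Fin d → ℝ) n)) :=
      (isCompact_closedBall (0 : Fin d → ℝ) (n : ℝ)).of_isClosed_subset isClosed_closure
        (closure_minimal inter_subset_right Metric.isClosed_closedBall)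
    refine (measure_mono subset_closure).trans (vol_le_compact hc ?_)
    exact fun v hv => det_closure (A := A ∩ Metric.closedBall 0 (n : ℝ))
      (fun w hw => h w fun i => (hw i).1) v hv
  have hU : A = ⋃ n : ℕ, A ∩ Metric.closedBall 0 n := by
    ext x
    simp only [mem_iUnion, mem_inter_iff, exists_and_left, Metric.mem_closedBall, dist_zero_right]
    exact ⟨fun hx => ⟨hx, exists_nat_ge ‖x‖⟩, fun hx => hx.1⟩
  have hdir : Monotone fun n : ℕ => A ∩ Metric.closedBall (0 : Fin d → ℝ) n := by
    intro m n hmn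
    exact inter_subset_inter_right _ (Metric.closedBall_subset_closedBall (by exact_mod_cast hmn))
  rw [hU, hdir.measure_iUnion]
  exact iSup_le hb

/-- a compact subset of full measure of a convex body is the whole body -/
theorem eq_of_vol {K L : Set (Fin d → ℝ)} (hK : IsCompact K) (hKL : K ⊆ L) (hL : IsCompact L)
    (hLc : Convex ℝ L) (hLi : (interior L).Nonempty) (hv : volume L ≤ volume K) : K = L := by
  refine hKL.antisymm fun x hx => ?_
  by_contra hxK
  have h1 : x ∈ closure (interior L) := by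
    rw [hLc.closure_interior_eq_closure_of_nonempty_interior hLi]
    exact subset_closure hx
  have h2 : (Kᶜ ∩ interior L).Nonempty :=
    mem_closure_iff.1 h1 _ hK.isClosed.isOpen_compl hxK
  have h3 : IsOpen (Kᶜ ∩ interior L) := hK.isClosed.isOpen_compl.inter isOpen_interior
  have h4 : 0 < volume (Kᶜ ∩ interior L) := h3.measure_pos volume h2
  have h5 : volume (L \ K) = volume L - volume K :=
    measure_sdiff hKL hK.measurableSet.nullMeasurableSet hK.measure_lt_top.ne
  rw [tsub_eq_zero_of_le hv] at h5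
  have h6 : Kᶜ ∩ interior L ⊆ L \ K := fun y hy => ⟨interior_subset hy.2, hy.1⟩
  exact absurd (measure_mono_null h6 h5) h4.ne'

theorem interior_of_pos {K : Set (Fin d → ℝ)} (hK : IsCompact K) (hc : Convex ℝ K)
    (hv : 0 < volume K) : (interior K).Nonempty := by
  by_contra hcon
  rw [not_nonempty_iff_eq_empty] at hcon
  have h1 : volume (frontier K) = 0 := hc.addHaar_frontier volume
  have h2 : K ⊆ frontier K := by
    intro x hx
    rw [frontier, hcon, sdiff_empty]
    exact subset_closure hx
  exact hv.ne' (measure_mono_null h2 h1)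

theorem kappa_pos' (d : ℕ) : 0 < MB.kappa d := by
  have h := kappa_pos d
  exact (ENNReal.toReal_pos_iff.1 h).1

/-- equality in the determinant inequality -/
theorem eq_case (hd : 1 ≤ d) {A : Set (Fin d → ℝ)} (hA : IsCompact A) {D : ℝ} (hD : 0 < D)
    (h : ∀ v : Fin d → Fin d → ℝ, (∀ i, v i ∈ A) → |(Matrix.of v).det| ≤ D)
    (hv : MB.kappa d * ENNReal.ofReal D ≤ volume A) :
    ∃ B : Matrix (Fin d) (Fin d) ℝ, B.det ≠ 0 ∧ A = (fun x => B.mulVec x) '' MB.eball d := by
  have hK := symHull_compact hA
  have hKc := conv_SH A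
  have hAK := sub_SH A
  have h1 : MB.kappa d * ENNReal.ofReal D ≤ volume (SH A) := hv.trans (measure_mono hAK)
  have hpos : 0 < volume (SH A) :=
    lt_of_lt_of_le (ENNReal.mul_pos (kappa_pos' d).ne' (ENNReal.ofReal_pos.2 hD).ne') h1
  have hint := interior_of_pos hK hKc hpos
  obtain ⟨B, hB, hBe⟩ := Y507.GM.equality hd hK hKc hint symHull_neg hD (det_SH h) h1
  refine ⟨B, hB, ?_⟩
  rw [← hBe]
  exact eq_of_vol hA hAK hK hKc hint
    ((MB.macbeath_pi d hK hKc (det_SH h)).trans hv)

theorem vol_image (B : Matrix (Fin d) (Fin d) ℝ) :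
    volume ((fun x => B.mulVec x) '' MB.eball d) = MB.kappa d * ENNReal.ofReal |B.det| := by
  have : (fun x => B.mulVec x) = (Matrix.toLin' B : (Fin d → ℝ) → Fin d → ℝ) := by
    funext x; rw [Matrix.toLin'_apply]
  rw [this, Measure.addHaar_image_linearMap, LinearMap.det_toLin', mul_comm]
  rfl

end Pool.Agent.KS6_79.GV
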