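import Pool.Agent.KS6_79.GV.B

set_option autoImplicit false
open MeasureTheory Set Module
open scoped ENNReal Pointwise

namespace Pool.Agent.KS6_79.GV

variable {d : ℕ}

open Pool.Agent.Helper481

/-- the `ℓ¹` ball of radius `s` -/
def L1 (d : ℕ) (s : ℝ) : Set (Fin d → ℝ) := {x | ∑ i, |x i| ≤ s}

/-- Euclidean ball cut by the `ℓ¹` ball of radius `s` -/
def Ms (d : ℕ) (s : ℝ) : Set (Fin d → ℝ) := euclideanBall d ∩ L1 d s

theorem L1_closed (d : ℕ) (s : ℝ) : IsClosed (L1 d s) :=
  isClosed_le (by fun_prop) continuous_const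

theorem L1_convex (d : ℕ) (s : ℝ) : Convex ℝ (L1 d s) := by
  intro x hx y hy a b ha hb hab
  simp only [L1, mem_ofPred_eq] at hx hy ⊢
  calc ∑ i, |(a • x + b • y) i| ≤ ∑ i, (a * |x i| + b * |y i|) := by
        refine Finset.sum_le_sum fun i _ => ?_
        simp only [Pi.add_apply, Pi.smul_apply, smul_eq_mul]
        refine (abs_add_le _ _).trans ?_
        rw [abs_mul, abs_mul, abs_of_nonneg ha, abs_of_nonneg hb]
    _ = a * ∑ i, |x i| + b * ∑ i, |y i| := by
        rw [Finset.sum_add_distrib, Finset.mul_sum, Finset.mul_sum]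
    _ ≤ a * s + b * s := by gcongr
    _ = s := by rw [← add_mul, hab, one_mul]

theorem single_mem (i : Fin d) {s : ℝ} (hs : 1 ≤ s) : (Pi.single i 1 : Fin d → ℝ) ∈ Ms d s := by
  constructor
  · show ∑ j, (Pi.single i (1 : ℝ) : Fin d → ℝ) j ^ 2 ≤ 1
    rw [Finset.sum_eq_single i]
    · simp
    · intro j _ hj
      rw [Pi.single_eq_of_ne hj]; norm_num
    · simp
  · show ∑ j, |(Pi.single i (1 : ℝ) : Fin d → ℝ) j| ≤ s
    rw [Finset.sum_eq_single i]
    · simpa using hs
    · intro j _ hj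
      rw [Pi.single_eq_of_ne hj]; norm_num
    · simp

theorem Ms_body (d : ℕ) {s : ℝ} (hs : 1 ≤ s) : IsSymConvexBody (Ms d s) := by
  have hb := ball_body d
  refine ⟨hb.isCompact.inter_right (L1_closed d s), hb.convex.inter (L1_convex d s), ?_, ?_⟩
  · refine ⟨0, ?_⟩
    rw [mem_interior]
    refine ⟨{x | ∑ i, x i ^ 2 < 1} ∩ {x | ∑ i, |x i| < 1}, fun x hx => ?_,
      (isOpen_lt (by fun_prop) continuous_const).inter (isOpen_lt (by fun_prop) continuous_const),
      by simp⟩
    obtain ⟨h1, h2⟩ := hx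
    have h1' : ∑ i, x i ^ 2 < 1 := h1
    have h2' : ∑ i, |x i| < 1 := h2
    exact ⟨(le_of_lt h1' : _ ≤ _), (by show ∑ i, |x i| ≤ s; linarith)⟩
  · intro x hx
    refine ⟨hb.neg_mem x hx.1, ?_⟩
    have h1 : ∑ i, |x i| ≤ s := hx.2
    show ∑ i, |(-x) i| ≤ s
    simpa using h1

theorem mass_Ms (hd : 0 < d) {s : ℝ} (hs : 1 ≤ s) : gromovMass (Ms d s) = (volume (Ms d s)).toReal := by
  have hM := Ms_body d hs
  have h1 : (Matrix.of fun i : Fin d => (Pi.single i (1 : ℝ) : Fin d → ℝ)) = 1 := by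
    ext i j
    simp [Matrix.one_apply, Pi.single_apply, eq_comm]
  have h2 := mass_eq hd hM (v := fun i => Pi.single i 1) (fun i => single_mem i hs)
    (by rw [h1]; simp) (fun w hw => by
      rw [h1, Matrix.det_one, abs_one]
      exact MB.det_eball w fun i => (hw i).1)
  rw [h2, h1]
  simp

theorem vol_L1 (hd : 0 < d) {s : ℝ} (hs : 0 ≤ s) :
    volume (L1 d s) = ENNReal.ofReal (s ^ d) * volume (L1 d 1) := by
  rcases hs.eq_or_lt with h0 | h0
  · subst h0
    have h1 : L1 d 0 = {0} := by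
      ext x
      simp only [L1, mem_ofPred_eq, mem_singleton_iff]
      constructor
      · intro h
        have h2 : ∑ i, |x i| = 0 := le_antisymm h (Finset.sum_nonneg fun i _ => abs_nonneg _)
        rw [Finset.sum_eq_zero_iff_of_nonneg fun i _ => abs_nonneg _] at h2
        funext i
        exact abs_eq_zero.1 (h2 i (Finset.mem_univ i))
      · rintro rfl; simp
    have : Nonempty (Fin d) := ⟨⟨0, hd⟩⟩
    rw [h1, measure_singleton, zero_pow hd.ne', ENNReal.ofReal_zero, zero_mul]
  · have h1 : L1 d s = s • L1 d 1 := by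
      ext x
      rw [mem_smul_set_iff_inv_smul_mem₀ h0.ne']
      simp only [L1, mem_ofPred_eq, Pi.smul_apply, smul_eq_mul, abs_mul, abs_inv, abs_of_pos h0,
        ← Finset.mul_sum]
      rw [inv_mul_le_iff₀ h0, mul_one]
    rw [h1, Measure.addHaar_smul]
    simp [abs_of_pos h0, h0.le]

theorem L1_one_vol (hd : 0 < d) : (volume (L1 d 1)).toReal = 2 ^ d / d.factorial := by
  have : Nonempty (Fin d) := ⟨⟨0, hd⟩⟩
  have h1 := volume_sum_rpow_le (Fin d) (p := 1) le_rfl 1
  have h2 : {x : Fin d → ℝ | (∑ i, |x i| ^ (1:ℝ)) ^ (1 / (1:ℝ)) ≤ 1} = L1 d 1 := by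
    ext x
    simp [L1]
  rw [h2] at h1
  rw [h1]
  simp only [ENNReal.ofReal_one, one_pow, one_mul, Fintype.card_fin, div_one]
  rw [ENNReal.toReal_ofReal (by positivity)]
  have e1 : Real.Gamma (1 + 1) = 1 := by
    rw [Real.Gamma_add_one one_ne_zero, Real.Gamma_one, mul_one]
  have e2 : Real.Gamma ((d : ℝ) + 1) = d.factorial := Real.Gamma_nat_eq_factorial d
  rw [e1, e2, mul_one]

theorem Ms_one (d : ℕ) : Ms d 1 = L1 d 1 := by
  refine inter_eq_right.2 fun x hx => ?_
  have h1 : ∑ i, |x i| ≤ 1 := hx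
  show ∑ i, x i ^ 2 ≤ 1
  calc ∑ i, x i ^ 2 ≤ ∑ i, |x i| := by
        refine Finset.sum_le_sum fun i _ => ?_
        have h2 : |x i| ≤ 1 :=
          (Finset.single_le_sum (f := fun i => |x i|) (fun i _ => abs_nonneg _)
            (Finset.mem_univ i)).trans h1
        rw [← sq_abs]
        nlinarith [abs_nonneg (x i)]
    _ ≤ 1 := h1

theorem Ms_top (hd : 0 < d) : Ms d d = euclideanBall d := by
  refine inter_eq_left.2 fun x hx => ?_
  have h1 : ∑ i, x i ^ 2 ≤ 1 := hx
  show ∑ i, |x i| ≤ (d : ℝ)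
  calc ∑ i, |x i| ≤ ∑ _i : Fin d, (1 : ℝ) := by
        refine Finset.sum_le_sum fun i _ => ?_
        have h2 : x i ^ 2 ≤ 1 :=
          (Finset.single_le_sum (f := fun i => x i ^ 2) (fun i _ => sq_nonneg _)
            (Finset.mem_univ i)).trans h1
        exact abs_le_one_iff_mul_self_le_one.2 (by nlinarith)
    _ = d := by simp

theorem vol_diff (hd : 0 < d) {s t : ℝ} (hs : 0 ≤ s) (hst : s ≤ t) :
    0 ≤ (volume (Ms d t)).toReal - (volume (Ms d s)).toReal ∧
    (volume (Ms d t)).toReal - (volume (Ms d s)).toReal ≤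
      2 ^ d / d.factorial * t ^ d - 2 ^ d / d.factorial * s ^ d := by
  have hfin : ∀ s : ℝ, volume (Ms d s) ≠ ⊤ := fun s =>
    ((measure_mono inter_subset_left).trans_lt (ball_body d).isCompact.measure_lt_top).ne
  have hsub : L1 d s ⊆ L1 d t := fun x hx => le_trans (hx : ∑ i, |x i| ≤ s) hst
  have hmeas : ∀ s, MeasurableSet (L1 d s) := fun s => (L1_closed d s).measurableSet
  have hball := (ball_body d).isCompact.measurableSet
  have hL : ∀ s : ℝ, 0 ≤ s → (volume (L1 d s)).toReal = 2 ^ d / d.factorial * s ^ d := by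
    intro s hs
    rw [vol_L1 hd hs, ENNReal.toReal_mul, ENNReal.toReal_ofReal (by positivity), L1_one_vol hd,
      mul_comm]
  have hLfin : ∀ s : ℝ, 0 ≤ s → volume (L1 d s) ≠ ⊤ := by
    intro s hs
    rw [vol_L1 hd hs]
    refine ENNReal.mul_ne_top ENNReal.ofReal_ne_top ?_
    rw [← Ms_one]; exact hfin 1
  have h1 : volume (Ms d t) ≤ volume (Ms d s) + (volume (L1 d t) - volume (L1 d s)) := by
    have h2 : Ms d t ⊆ Ms d s ∪ (L1 d t \ L1 d s) := by
      intro x hx
      by_cases h : x ∈ L1 d s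
      · exact Or.inl ⟨hx.1, h⟩
      · exact Or.inr ⟨hx.2, h⟩
    refine (measure_mono h2).trans ((measure_union_le _ _).trans ?_)
    rw [measure_sdiff hsub (hmeas s).nullMeasurableSet (hLfin s hs)]
  have ht := hs.trans hst
  constructor
  · rw [sub_nonneg]
    exact ENNReal.toReal_mono (hfin t) (measure_mono (inter_subset_inter_right _ hsub))
  · have h3 : (volume (L1 d t) - volume (L1 d s)).toReal =
        (volume (L1 d t)).toReal - (volume (L1 d s)).toReal :=
      ENNReal.toReal_sub_of_le (measure_mono hsub) (hLfin t ht)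
    have h4 := ENNReal.toReal_mono
      (ENNReal.add_ne_top.2 ⟨hfin s, ENNReal.sub_ne_top (hLfin t ht)⟩) h1
    rw [ENNReal.toReal_add (hfin s) (ENNReal.sub_ne_top (hLfin t ht)), h3, hL t ht, hL s hs] at h4
    linarith

theorem cont_Ms (hd : 0 < d) :
    ContinuousOn (fun s : ℝ => (volume (Ms d s)).toReal) (Icc 1 d) := by
  rw [Metric.continuousOn_iff]
  intro s hs ε hε
  have hc : ContinuousAt (fun s : ℝ => (2 : ℝ) ^ d / d.factorial * s ^ d) s := by fun_prop
  obtain ⟨δ, hδ, h⟩ := Metric.continuousAt_iff.1 hc ε hε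
  refine ⟨δ, hδ, fun t ht hts => ?_⟩
  have h1 := h hts
  rw [Real.dist_eq] at h1 ⊢
  have hs0 : (0 : ℝ) ≤ s := by linarith [hs.1]
  have ht0 : (0 : ℝ) ≤ t := by linarith [ht.1]
  rcases le_total s t with hst | hst
  · obtain ⟨k1, k2⟩ := vol_diff hd hs0 hst
    rw [abs_of_nonneg k1]
    exact (k2.trans (le_abs_self _)).trans_lt h1
  · obtain ⟨k1, k2⟩ := vol_diff hd ht0 hst
    rw [abs_sub_comm, abs_of_nonneg k1]
    rw [abs_sub_comm] at h1
    exact (k2.trans (le_abs_self _)).trans_lt h1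

/-- all intermediate values are attained -/
theorem attained (hd : 1 ≤ d) {c : ℝ} (hc : c ∈ Icc ((2 : ℝ) ^ d / d.factorial)
    (volume (euclideanBall d)).toReal) :
    ∃ M : Set (Fin d → ℝ), IsSymConvexBody M ∧ c = gromovMass M := by
  have hd0 : 0 < d := hd
  have h1d : (1 : ℝ) ≤ d := by exact_mod_cast hd
  have h1 := intermediate_value_Icc h1d (cont_Ms hd0)
  have h2 : (volume (Ms d 1)).toReal = 2 ^ d / d.factorial := by rw [Ms_one, L1_one_vol hd0]
  have h3 : (volume (Ms d d)).toReal = (volume (euclideanBall d)).toReal := by rw [Ms_top hd0]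
  simp only [h2, h3] at h1
  obtain ⟨s, hs, hsc⟩ := h1 hc
  exact ⟨Ms d s, Ms_body d hs.1, by rw [mass_Ms hd0 hs.1]; exact hsc.symm⟩

theorem cross_compact (v : Fin d → (Fin d → ℝ)) : IsCompact (crossPolytope v) :=
  ((finite_range _).union (finite_range _)).isCompact_convexHull ℝ

theorem cross_sub {M : Set (Fin d → ℝ)} (hM : IsSymConvexBody M) {v : Fin d → (Fin d → ℝ)}
    (hv : ∀ i, v i ∈ M) : crossPolytope v ⊆ M := by
  refine convexHull_min ?_ hM.convex
  rintro x (⟨i, rfl⟩ | ⟨i, rfl⟩)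
  · exact hv i
  · exact hM.neg_mem _ (hv i)

theorem vol_cross_ne (v : Fin d → (Fin d → ℝ)) : volume (crossPolytope v) ≠ ⊤ :=
  (cross_compact v).measure_lt_top.ne

/-- the lower bound -/
theorem mass_ge (hd : 0 < d) {M : Set (Fin d → ℝ)} (hM : IsSymConvexBody M) :
    (2 : ℝ) ^ d / d.factorial ≤ gromovMass M := by
  obtain ⟨v, hv, hpos, hmax⟩ := exists_max hM
  rw [mass_eq hd hM hv hpos hmax, le_div_iff₀ hpos]
  have h1 : (volume (crossPolytope v)).toReal ≤ (volume M).toReal :=
    ENNReal.toReal_mono hM.isCompact.measure_lt_top.ne (measure_mono (cross_sub hM hv))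
  rw [vol_cross hd] at h1
  linarith

/-- equality in the lower bound -/
theorem mass_eq_low (hd : 0 < d) {M : Set (Fin d → ℝ)} (hM : IsSymConvexBody M) :
    gromovMass M = (2 : ℝ) ^ d / d.factorial ↔ ∃ v, LinearIndependent ℝ v ∧ M = crossPolytope v := by
  constructor
  · intro h
    obtain ⟨v, hv, hpos, hmax⟩ := exists_max hM
    rw [mass_eq hd hM hv hpos hmax, div_eq_iff hpos.ne'] at h
    refine ⟨v, (det_iff v).2 (abs_pos.1 hpos), ?_⟩
    symm
    refine eq_of_vol (cross_compact v) (cross_sub hM hv) hM.isCompact hM.convex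
      hM.interior_nonempty ?_
    rw [← ENNReal.toReal_le_toReal hM.isCompact.measure_lt_top.ne (vol_cross_ne v), vol_cross hd, h]
    linarith
  · rintro ⟨v, hv, rfl⟩
    have hpos : 0 < |(Matrix.of v).det| := abs_pos.2 ((det_iff v).1 hv)
    have hvm : ∀ i, v i ∈ crossPolytope v := fun i =>
      subset_convexHull ℝ _ (Or.inl ⟨i, rfl⟩)
    have hmax : ∀ w : Fin d → (Fin d → ℝ), (∀ i, w i ∈ crossPolytope v) →
        |(Matrix.of w).det| ≤ |(Matrix.of v).det| := by
      intro w hw
      refine det_hull (A := range v) ?_ w ?_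
      · intro u hu
        choose σ hσ using hu
        have hu' : u = v ∘ σ := funext fun i => (hσ i).symm
        have e : (Matrix.of u) = (Matrix.of v).submatrix σ id := by
          rw [hu']; rfl
        by_cases hinj : Function.Injective σ
        · have hbij := Finite.injective_iff_bijective.1 hinj
          have e2 : (Matrix.of v).submatrix σ id =
              (Matrix.of v).submatrix (Equiv.ofBijective σ hbij) id := rfl
          rw [e, e2, Matrix.det_permute, abs_mul]
          rcases Int.units_eq_one_or (Equiv.Perm.sign (Equiv.ofBijective σ hbij)) with h | h <;>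
            rw [h] <;> simp
        · rw [Function.not_injective_iff] at hinj
          obtain ⟨i, j, hij, hne⟩ := hinj
          rw [Matrix.det_zero_of_row_eq hne (by
            rw [e]; ext k; simp [hij])]
          simp
      · intro i
        have h1 : range v ∪ -range v = range v ∪ range (fun i => -v i) := by
          congr 1
          ext x
          simp only [mem_neg, mem_range]
          constructor
          · rintro ⟨y, hy⟩; exact ⟨y, by rw [hy, neg_neg]⟩
          · rintro ⟨y, hy⟩; exact ⟨y, by rw [← hy, neg_neg]⟩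
        rw [h1]
        exact hw i
    rw [mass_eq hd hM hvm hpos hmax, vol_cross hd]
    field_simp

end Pool.Agent.KS6_79.GV
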